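import Pool.Agent.N696.LI.Stm

/-! Project LI, part EXPM (helper424) -/

set_option autoImplicit false

namespace Pool.Agent.N424.LI

open Pool.Agent.N696.LI

section
attribute [local instance] Matrix.linftyOpNormedRing Matrix.linftyOpNormedAlgebra

theorem expm : S_expm := by
  intro A _ _ _ k b X M hbr g hg j
  have : CompleteSpace A := FiniteDimensional.complete ℝ A
  have : CompleteSpace (Mat k) := FiniteDimensional.complete ℝ (Mat k)
  let +nondep : NormedAlgebra ℚ A := .restrictScalars ℚ ℝ A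
  -- the linear map `N ↦ ∑ i, N i j • b i`
  obtain ⟨φ, hφ⟩ : ∃ φ : Mat k →ₗ[ℝ] A, ∀ N, φ N = ∑ i, N i j • b i := by
    refine ⟨{ toFun := fun N => ∑ i, N i j • b i, map_add' := ?_, map_smul' := ?_ }, fun N => rfl⟩
    · intro N N'
      simp only [Matrix.add_apply, add_smul, Finset.sum_add_distrib]
    · intro c N
      simp only [Matrix.smul_apply, smul_eq_mul, mul_smul, RingHom.id_apply, Finset.smul_sum]
  have hz : ∀ t : ℝ, HasDerivAt (fun t : ℝ => φ (NormedSpace.exp (t • M)))
      (br X (φ (NormedSpace.exp (t • M)))) t := by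
    intro t
    have h := hasDerivAt_exp_smul_const' M t
    have h2 := (LinearMap.toContinuousLinearMap φ).hasFDerivAt.comp_hasDerivAt t h
    refine h2.congr_deriv ?_
    show φ (M * NormedSpace.exp (t • M)) = br X (φ (NormedSpace.exp (t • M)))
    rw [hφ, hφ]
    obtain ⟨N, hN⟩ : ∃ N, N = NormedSpace.exp (t • M) := ⟨_, rfl⟩
    rw [← hN]
    have e1 : br X (∑ i, N i j • b i) = ∑ i, N i j • br X (b i) := by
      unfold br
      rw [Finset.mul_sum, Finset.sum_mul, ← Finset.sum_sub_distrib]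
      refine Finset.sum_congr rfl fun i _ => ?_
      rw [smul_sub, mul_smul_comm, smul_mul_assoc]
    rw [e1]
    simp only [hbr, Matrix.mul_apply, Finset.sum_smul, Finset.smul_sum, smul_smul]
    rw [Finset.sum_comm]
    refine Finset.sum_congr rfl fun i _ => Finset.sum_congr rfl fun l _ => ?_
    rw [mul_comm]
  -- the constant function
  have hw : ∀ t : ℝ, HasDerivAt (fun t : ℝ => NormedSpace.exp (t • (-X)) *
      φ (NormedSpace.exp (t • M)) * NormedSpace.exp (t • X)) 0 t := by
    intro t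
    have h1 := hasDerivAt_exp_smul_const (-X) t
    have h2 := hasDerivAt_exp_smul_const' X t
    refine ((h1.mul (hz t)).mul h2).congr_deriv ?_
    show (NormedSpace.exp (t • -X) * -X * φ (NormedSpace.exp (t • M)) +
      NormedSpace.exp (t • -X) * br X (φ (NormedSpace.exp (t • M)))) * NormedSpace.exp (t • X) +
      NormedSpace.exp (t • -X) * φ (NormedSpace.exp (t • M)) * (X * NormedSpace.exp (t • X)) = 0
    obtain ⟨P, hP⟩ : ∃ P, P = NormedSpace.exp (t • -X) := ⟨_, rfl⟩
    obtain ⟨Q, hQ⟩ : ∃ Q, Q = φ (NormedSpace.exp (t • M)) := ⟨_, rfl⟩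
    obtain ⟨R, hR⟩ : ∃ R, R = NormedSpace.exp (t • X) := ⟨_, rfl⟩
    rw [← hP, ← hQ, ← hR]
    unfold br
    noncomm_ring
  have hconst := is_const_of_deriv_eq_zero (fun t => (hw t).differentiableAt)
    (fun t => (hw t).deriv) 1 0
  simp only [one_smul, zero_smul, NormedSpace.exp_zero, one_mul, mul_one] at hconst
  have h1 : φ 1 = b j := by
    rw [hφ]
    simp [Matrix.one_apply]
  rw [h1] at hconst
  have h2 : (g : A) * NormedSpace.exp (-X) = 1 := by
    rw [hg, ← NormedSpace.exp_add_of_commute ((Commute.refl X).neg_right), add_neg_cancel,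
      NormedSpace.exp_zero]
  have h3 : ((g⁻¹ : Aˣ) : A) = NormedSpace.exp (-X) := by
    rw [← Units.mul_right_inj g, h2, Units.mul_inv]
  rw [← hφ]
  unfold cj
  rw [← hconst, ← hg]
  have h4 : (g : A) * (NormedSpace.exp (-X) * φ (NormedSpace.exp M) * g) * ((g⁻¹ : Aˣ) : A) =
      ((g : A) * NormedSpace.exp (-X)) * φ (NormedSpace.exp M) * ((g : A) * ((g⁻¹ : Aˣ) : A)) := by
    simp only [mul_assoc]
  rw [h4, h2, Units.mul_inv, one_mul, mul_one]

end

end Pool.Agent.N424.LI
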