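import Pool.Agent.N696.LI.Stm

/-! Project LI, part MINV (helper424) -/

set_option autoImplicit false

namespace Pool.Agent.N424.LI

open Pool.Agent.N696.LI
open Topology MvPolynomial Matrix
open scoped MatrixOrder

theorem eval_smul_hom {σ : Type} {p : MvPolynomial σ ℝ} {k : ℕ} (hp : p.IsHomogeneous k)
    (c : ℝ) (v : σ → ℝ) : eval (c • v) p = c ^ k * eval v p := by
  rw [eval_eq, eval_eq, Finset.mul_sum]
  refine Finset.sum_congr rfl fun d hd => ?_
  have h1 : d.degree = k := by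
    have := hp (mem_support_iff.1 hd)
    rw [Finsupp.degree_eq_weight_one]; exact this
  simp only [Pi.smul_apply, smul_eq_mul, mul_pow, Finset.prod_mul_distrib]
  rw [Finset.prod_pow_eq_pow_sum]
  have h2 : ∑ i ∈ d.support, d i = k := by rw [← h1]; rfl
  rw [h2]
  ring

theorem exp_scalar {m : ℕ} (s : ℝ) :
    NormedSpace.exp (s • (1 : Mat m)) = Real.exp s • (1 : Mat m) := by
  have h1 : s • (1 : Mat m) = Matrix.diagonal fun _ => s := by
    ext i j
    simp [Matrix.one_apply, Matrix.diagonal_apply]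
  rw [h1, Matrix.exp_diagonal]
  ext i j
  simp [Matrix.one_apply, Matrix.diagonal_apply, Real.exp_eq_exp_ℝ]

theorem exp_shift {m : ℕ} (s : ℝ) (M : Mat m) :
    NormedSpace.exp (s • (1 : Mat m) + M) = Real.exp s • NormedSpace.exp M := by
  rw [Matrix.exp_add_of_commute _ _ ((Commute.one_left M).smul_left s), exp_scalar,
    smul_mul_assoc, one_mul]

section
attribute [local instance] Matrix.linftyOpNormedRing Matrix.linftyOpNormedAlgebra

theorem exp_vec {m : ℕ} (M : Mat m) (y : Fin m → ℝ) :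
    HasDerivAt (fun t : ℝ => (NormedSpace.exp (t • M)).mulVec y) (M.mulVec y) 0 := by
  have h := hasDerivAt_exp_smul_const M (0 : ℝ)
  rw [zero_smul, NormedSpace.exp_zero, one_mul] at h
  obtain ⟨φ, hφ⟩ : ∃ φ : Mat m →ₗ[ℝ] (Fin m → ℝ), ∀ N, φ N = N.mulVec y := by
    refine ⟨{ toFun := fun N => N.mulVec y, map_add' := ?_, map_smul' := ?_ }, fun N => rfl⟩
    · intro N N'
      exact Matrix.add_mulVec N N' y
    · intro c N
      exact Matrix.smul_mulVec c N y
  have h2 := (LinearMap.toContinuousLinearMap φ).hasFDerivAt.comp_hasDerivAt (0 : ℝ) h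
  have h3 : HasDerivAt (fun t : ℝ => φ (NormedSpace.exp (t • M))) (φ M) 0 := h2
  rw [hφ] at h3
  simpa only [hφ] using h3

end

theorem minv (hopen : S_open) : S_minv := by
  intro m F _ _ _ D G Γ d Q hG hQ S hS ν hν
  -- the orbit
  obtain ⟨O, hO⟩ : ∃ O : Set (Fin m → ℝ), O = {y | ∃ g ∈ G, y = (g : Mat m).mulVec ν} := ⟨_, rfl⟩
  have hνO : ν ∈ O := by
    rw [hO]
    exact ⟨1, G.one_mem, by simp⟩
  have hQO : ∀ y ∈ O, eval y Q = eval ν Q := by
    intro y hy
    rw [hO] at hy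
    obtain ⟨g, hg, rfl⟩ := hy
    exact hQ.inv g hg ν
  have hcont : Continuous fun y : Fin m → ℝ => eval y Q := MvPolynomial.continuous_eval Q
  -- the orbit is closed
  have hclosed : IsClosed O := by
    rw [isClosed_iff_clusterPt]
    intro y hy
    rw [← mem_closure_iff_clusterPt] at hy
    have hQy : eval y Q = eval ν Q := by
      have h1 : IsClosed {y : Fin m → ℝ | eval y Q = eval ν Q} :=
        isClosed_eq hcont continuous_const
      exact h1.closure_subset_iff.2 (fun z hz => hQO z hz) hy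
    -- the extended map
    obtain ⟨D', hD'⟩ : ∃ D' : (ℝ × F) →ₗ[ℝ] Mat m, ∀ p, D' p = p.1 • (1 : Mat m) + D p.2 := by
      refine ⟨(LinearMap.fst ℝ ℝ F).smulRight (1 : Mat m) + D ∘ₗ LinearMap.snd ℝ ℝ F, ?_⟩
      intro p
      rfl
    have hsurj : ∀ z, ∃ p, z = (D' p).mulVec y := by
      intro z
      obtain ⟨X, c, h⟩ := hQ.good y (by rw [hQy]; exact hν) z
      refine ⟨(c, X), ?_⟩
      rw [hD', h, Matrix.add_mulVec, Matrix.smul_mulVec, Matrix.one_mulVec, add_comm]
    have h1 := hopen m (ℝ × F) D' y hsurj Set.univ Filter.univ_mem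
    obtain ⟨z, ⟨p, -, hp⟩, hz⟩ := mem_closure_iff_nhds.1 hy _ h1
    rw [hD', exp_shift] at hp
    obtain ⟨g', hg', hg'e⟩ := hG.exp_mem p.2
    rw [← hg'e, Matrix.smul_mulVec] at hp
    have h2 : eval z Q = Real.exp p.1 ^ d * eval ν Q := by
      rw [hp, eval_smul_hom hQ.hom, hQ.inv g' hg', hQy]
    rw [hQO z hz] at h2
    have h3 : Real.exp p.1 ^ d = 1 := by
      have : (1 - Real.exp p.1 ^ d) * eval ν Q = 0 := by linarith
      rcases mul_eq_zero.1 this with h | h
      · linarith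
      · exact absurd h hν
    have h4 : Real.exp p.1 = 1 :=
      (pow_eq_one_iff_of_nonneg (Real.exp_pos _).le (by have := hQ.hd; omega)).1 h3
    rw [h4, one_smul] at hp
    rw [hO] at hz ⊢
    obtain ⟨g, hg, hgz⟩ := hz
    refine ⟨g'⁻¹ * g, G.mul_mem (G.inv_mem hg') hg, ?_⟩
    rw [Units.val_mul, ← Matrix.mulVec_mulVec, ← hgz, hp, Matrix.mulVec_mulVec, Units.inv_mul,
      Matrix.one_mulVec]
  -- the quadratic form
  obtain ⟨N, hN⟩ : ∃ N : (Fin m → ℝ) → ℝ, N = fun y => y ⬝ᵥ S.mulVec y := ⟨_, rfl⟩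
  have hNc : Continuous N := by
    rw [hN]
    fun_prop
  obtain ⟨B, hB, hSB⟩ := CStarAlgebra.isStrictlyPositive_iff_eq_star_mul_self.mp
    hS.isStrictlyPositive
  obtain ⟨B', rfl⟩ := hB
  have hNB : ∀ y, N y = (B' : Mat m).mulVec y ⬝ᵥ (B' : Mat m).mulVec y := by
    intro y
    rw [hN]
    show y ⬝ᵥ S.mulVec y = _
    rw [hSB, Matrix.star_eq_conjTranspose, ← Matrix.mulVec_mulVec, Matrix.dotProduct_mulVec,
      Matrix.vecMul_conjTranspose]
    simp
  have hNb : ∀ y, ∀ i, ((B' : Mat m).mulVec y) i ^ 2 ≤ N y := by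
    intro y i
    rw [hNB, dotProduct]
    have : ((B' : Mat m).mulVec y) i ^ 2 = ((B' : Mat m).mulVec y) i * ((B' : Mat m).mulVec y) i :=
      sq _
    rw [this]
    exact Finset.single_le_sum (f := fun i => ((B' : Mat m).mulVec y) i *
      ((B' : Mat m).mulVec y) i) (fun j _ => mul_self_nonneg _) (Finset.mem_univ i)
  have hNν : 0 ≤ N ν := by
    rw [hNB, dotProduct]
    exact Finset.sum_nonneg fun j _ => mul_self_nonneg _
  have hcomp : IsCompact (O ∩ {y | N y ≤ N ν}) := by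
    have hK : IsCompact ((fun y : Fin m → ℝ => ((B'⁻¹ : (Mat m)ˣ) : Mat m).mulVec y) ''
        Metric.closedBall 0 (Real.sqrt (N ν))) :=
      (isCompact_closedBall _ _).image (by fun_prop)
    refine hK.of_isClosed_subset (hclosed.inter (isClosed_le hNc continuous_const)) ?_
    rintro y ⟨-, hy⟩
    refine ⟨(B' : Mat m).mulVec y, ?_, ?_⟩
    · rw [mem_closedBall_zero_iff, pi_norm_le_iff_of_nonneg (Real.sqrt_nonneg _)]
      intro i
      rw [Real.norm_eq_abs]
      exact Real.abs_le_sqrt ((hNb y i).trans hy)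
    · show ((B'⁻¹ : (Mat m)ˣ) : Mat m).mulVec ((B' : Mat m).mulVec y) = y
      rw [Matrix.mulVec_mulVec, Units.inv_mul, Matrix.one_mulVec]
  obtain ⟨η, ⟨hηO, hην⟩, hmin⟩ := hcomp.exists_isMinOn
    ⟨ν, hνO, le_refl (N ν)⟩ hNc.continuousOn
  have hmin' : ∀ y ∈ O, N η ≤ N y := by
    intro y hy
    by_cases h : N y ≤ N ν
    · exact hmin ⟨hy, h⟩
    · exact hην.trans (not_le.1 h).le
  have hηO' := hηO
  rw [hO] at hηO'
  obtain ⟨g, hg, hgη⟩ := hηO'
  refine ⟨g, hg, ?_⟩
  rw [← hgη]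
  intro X
  -- the derivative at the minimum
  have hder : HasDerivAt (fun t : ℝ => N ((NormedSpace.exp (t • D X)).mulVec η))
      (2 * ((D X).mulVec η ⬝ᵥ S.mulVec η)) 0 := by
    have h1 := exp_vec (D X) η
    have h0 : (NormedSpace.exp ((0 : ℝ) • D X)).mulVec η = η := by
      rw [zero_smul, NormedSpace.exp_zero, Matrix.one_mulVec]
    have h1i : ∀ i, HasDerivAt (fun t : ℝ => ((NormedSpace.exp (t • D X)).mulVec η) i)
        ((D X).mulVec η i) 0 := fun i => (hasDerivAt_pi.1 h1) i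
    have h2 : HasDerivAt (fun t : ℝ => ∑ i, ((NormedSpace.exp (t • D X)).mulVec η) i *
        ∑ j, S i j * ((NormedSpace.exp (t • D X)).mulVec η) j)
        (∑ i, ((D X).mulVec η i * (∑ j, S i j * η j) + η i * ∑ j, S i j * (D X).mulVec η j)) 0 := by
      refine HasDerivAt.fun_sum fun i _ => ?_
      have e1 := (h1i i).mul (HasDerivAt.fun_sum (u := Finset.univ)
        (A := fun j (t : ℝ) => S i j * ((NormedSpace.exp (t • D X)).mulVec η) j)
        (A' := fun j => S i j * (D X).mulVec η j) (x := 0)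
        fun j _ => (h1i j).const_mul (S i j))
      simp only [h0] at e1
      exact e1
    have h3 : (fun t : ℝ => N ((NormedSpace.exp (t • D X)).mulVec η)) = fun t : ℝ =>
        ∑ i, ((NormedSpace.exp (t • D X)).mulVec η) i *
        ∑ j, S i j * ((NormedSpace.exp (t • D X)).mulVec η) j := by
      funext t
      rw [hN]
      rfl
    rw [h3]
    refine h2.congr_deriv ?_
    have h4 : ∑ i, (D X).mulVec η i * (∑ j, S i j * η j) = (D X).mulVec η ⬝ᵥ S.mulVec η := rfl
    have h5 : ∑ i, η i * (∑ j, S i j * (D X).mulVec η j) = (D X).mulVec η ⬝ᵥ S.mulVec η := by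
      have e1 : ∑ i, η i * (∑ j, S i j * (D X).mulVec η j) = η ⬝ᵥ S.mulVec ((D X).mulVec η) := rfl
      have e2 : Sᵀ = S := by
        have := hS.1
        rw [Matrix.IsHermitian, Matrix.conjTranspose_eq_transpose_of_trivial] at this
        exact this
      rw [e1, Matrix.dotProduct_mulVec, ← Matrix.mulVec_transpose, e2, dotProduct_comm]
    rw [Finset.sum_add_distrib, h4, h5]
    ring
  have hloc : IsLocalMin (fun t : ℝ => N ((NormedSpace.exp (t • D X)).mulVec η)) 0 := by
    refine Filter.Eventually.of_forall fun t => ?_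
    show N ((NormedSpace.exp ((0 : ℝ) • D X)).mulVec η) ≤ N ((NormedSpace.exp (t • D X)).mulVec η)
    rw [zero_smul, NormedSpace.exp_zero, Matrix.one_mulVec]
    apply hmin'
    obtain ⟨g', hg', hg'e⟩ := hG.exp_mem (t • X)
    rw [map_smul] at hg'e
    rw [hO]
    refine ⟨g' * g, G.mul_mem hg' hg, ?_⟩
    rw [hgη, Matrix.mulVec_mulVec, ← hg'e, Units.val_mul]
  have h6 := hloc.hasDerivAt_eq_zero hder
  linarith

end Pool.Agent.N424.LI
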