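import Pool.Agent.N696.LI.Stm

/-! Project LI, part POLY1 (helper424) -/

set_option autoImplicit false

namespace Pool.Agent.N424.LI

open Pool.Agent.N696.LI
open Topology MvPolynomial Matrix

section

variable {A : Type} [NormedRing A] [NormedAlgebra ℝ A]

theorem br_sum_left {n : ℕ} (c : Fin n → ℝ) (f : Fin n → A) (X : A) :
    br (∑ i, c i • f i) X = ∑ i, c i • br (f i) X := by
  unfold br
  rw [Finset.sum_mul, Finset.mul_sum, ← Finset.sum_sub_distrib]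
  refine Finset.sum_congr rfl fun i _ => ?_
  rw [smul_sub, smul_mul_assoc, mul_smul_comm]

theorem br_anti (X Y : A) : br X Y = -br Y X := by
  unfold br
  rw [neg_sub]

theorem br_sum_right {n : ℕ} (c : Fin n → ℝ) (f : Fin n → A) (X : A) :
    br X (∑ i, c i • f i) = ∑ i, c i • br X (f i) := by
  rw [br_anti, br_sum_left, ← Finset.sum_neg_distrib]
  refine Finset.sum_congr rfl fun i _ => ?_
  rw [← smul_neg, ← br_anti]

theorem br_self (X : A) : br X X = 0 := by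
  unfold br
  rw [sub_self]

theorem br_sub_left (X Y Z : A) : br (X - Y) Z = br X Z - br Y Z := by
  unfold br
  noncomm_ring

theorem br_smul_left (c : ℝ) (X Z : A) : br (c • X) Z = c • br X Z := by
  unfold br
  rw [smul_sub, smul_mul_assoc, mul_smul_comm]

variable {𝔤 : Submodule ℝ A} {n : ℕ}

theorem repr_coe (e : Module.Basis (Fin n) ℝ 𝔤) (Z : 𝔤) :
    (Z : A) = ∑ i, e.repr Z i • (e i : A) := by
  conv_lhs => rw [← e.sum_repr Z]
  simp only [Submodule.coe_sum, Submodule.coe_smul]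

/-- the bracket of two basis elements -/
noncomputable def BB (hlie : ∀ X ∈ 𝔤, ∀ Y ∈ 𝔤, br X Y ∈ 𝔤) (e : Module.Basis (Fin n) ℝ 𝔤) (i j : Fin n) : 𝔤 :=
  ⟨br (e i) (e j), hlie _ (e i).2 _ (e j).2⟩

/-- the bordered matrix -/
noncomputable def RM (hlie : ∀ X ∈ 𝔤, ∀ Y ∈ 𝔤, br X Y ∈ 𝔤) (e : Module.Basis (Fin n) ℝ 𝔤)
    (γ : 𝔤 →ₗ[ℝ] ℝ) : Matrix (Unit ⊕ Fin n) (Unit ⊕ Fin n) ℝ :=
  fromBlocks 0 (of fun _ j => γ (e j)) (of fun i _ => -γ (e i)) (of fun i j => γ (BB hlie e i j))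

/-- the matrix of linear forms -/
noncomputable def PM (hlie : ∀ X ∈ 𝔤, ∀ Y ∈ 𝔤, br X Y ∈ 𝔤) (e : Module.Basis (Fin n) ℝ 𝔤) :
    Matrix (Unit ⊕ Fin n) (Unit ⊕ Fin n) (MvPolynomial (Fin n) ℝ) :=
  fromBlocks 0 (of fun _ j => X j) (of fun i _ => -X i)
    (of fun i j => ∑ k, C (e.repr (BB hlie e i j) k) * X k)

theorem PM_hom (hlie : ∀ X ∈ 𝔤, ∀ Y ∈ 𝔤, br X Y ∈ 𝔤) (e : Module.Basis (Fin n) ℝ 𝔤)
    (p q : Unit ⊕ Fin n) : (PM hlie e p q).IsHomogeneous 1 := by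
  unfold PM
  rcases p with p | p <;> rcases q with q | q
  · simpa using isHomogeneous_zero (σ := Fin n) (R := ℝ) 1
  · simpa using isHomogeneous_X ℝ q
  · simpa using (isHomogeneous_X ℝ p).neg
  · simp only [fromBlocks_apply₂₂, of_apply]
    exact IsHomogeneous.sum _ _ _ fun k _ => isHomogeneous_C_mul_X _ _

theorem PM_det_hom (hlie : ∀ X ∈ 𝔤, ∀ Y ∈ 𝔤, br X Y ∈ 𝔤) (e : Module.Basis (Fin n) ℝ 𝔤) :
    (PM hlie e).det.IsHomogeneous (n + 1) := by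
  rw [Matrix.det_apply']
  refine IsHomogeneous.sum _ _ _ fun σ _ => ?_
  have h1 : (∏ i, PM hlie e (σ i) i).IsHomogeneous (∑ _i : Unit ⊕ Fin n, 1) :=
    IsHomogeneous.prod _ _ _ fun i _ => PM_hom hlie e _ _
  have h2 : (∑ _i : Unit ⊕ Fin n, 1) = n + 1 := by
    simp [add_comm]
  rw [h2] at h1
  have h3 : (((Equiv.Perm.sign σ : ℤ) : MvPolynomial (Fin n) ℝ)) =
      C (((Equiv.Perm.sign σ : ℤ) : ℝ)) := by simp
  rw [h3]
  exact h1.C_mul _

theorem eval_PM (hlie : ∀ X ∈ 𝔤, ∀ Y ∈ 𝔤, br X Y ∈ 𝔤) (e : Module.Basis (Fin n) ℝ 𝔤)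
    (γ : 𝔤 →ₗ[ℝ] ℝ) : eval (fun i => γ (e i)) (PM hlie e).det = (RM hlie e γ).det := by
  rw [RingHom.map_det]
  congr 1
  ext p q
  unfold PM RM
  rcases p with p | p <;> rcases q with q | q
  · simp
  · simp
  · simp
  · simp only [RingHom.mapMatrix_apply, map_apply, fromBlocks_apply₂₂, of_apply, map_sum, map_mul,
      eval_C, eval_X]
    conv_rhs => rw [← e.sum_repr (BB hlie e p q), map_sum]
    refine Finset.sum_congr rfl fun k _ => ?_
    rw [map_smul, smul_eq_mul]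

theorem RM_inl (hlie : ∀ X ∈ 𝔤, ∀ Y ∈ 𝔤, br X Y ∈ 𝔤) (e : Module.Basis (Fin n) ℝ 𝔤)
    (β : A →ₗ[ℝ] ℝ) (v : Unit ⊕ Fin n → ℝ) :
    (RM hlie e (β ∘ₗ 𝔤.subtype) *ᵥ v) (Sum.inl ()) = β (∑ j, v (Sum.inr j) • (e j : A)) := by
  unfold RM
  rw [fromBlocks_mulVec]
  simp only [Sum.elim_inl, zero_mulVec, zero_add, mulVec, dotProduct, of_apply, map_sum, map_smul,
    smul_eq_mul, Function.comp_apply]
  refine Finset.sum_congr rfl fun j _ => ?_
  rw [mul_comm]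
  rfl

theorem RM_inr (hlie : ∀ X ∈ 𝔤, ∀ Y ∈ 𝔤, br X Y ∈ 𝔤) (e : Module.Basis (Fin n) ℝ 𝔤)
    (β : A →ₗ[ℝ] ℝ) (v : Unit ⊕ Fin n → ℝ) (i : Fin n) :
    (RM hlie e (β ∘ₗ 𝔤.subtype) *ᵥ v) (Sum.inr i) = -(v (Sum.inl ()) * β (e i)) +
      β (br (e i : A) (∑ j, v (Sum.inr j) • (e j : A))) := by
  unfold RM
  rw [fromBlocks_mulVec, br_sum_right]
  simp only [Sum.elim_inr, mulVec, dotProduct, of_apply, map_sum, map_smul,
    smul_eq_mul, Function.comp_apply, Pi.add_apply]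
  congr 1
  · simp [mul_comm]
  · refine Finset.sum_congr rfl fun j _ => ?_
    rw [mul_comm]
    rfl

/-- the equation of a vector in the image, for all `Y` -/
theorem RM_all (hlie : ∀ X ∈ 𝔤, ∀ Y ∈ 𝔤, br X Y ∈ 𝔤) (e : Module.Basis (Fin n) ℝ 𝔤)
    (β : A →ₗ[ℝ] ℝ) (v : Unit ⊕ Fin n → ℝ)
    (h : ∀ i, (RM hlie e (β ∘ₗ 𝔤.subtype) *ᵥ v) (Sum.inr i) = 0) {Y : A} (hY : Y ∈ 𝔤) :
    -(v (Sum.inl ()) * β Y) + β (br Y (∑ j, v (Sum.inr j) • (e j : A))) = 0 := by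
  have hYe : Y = ∑ i, e.repr ⟨Y, hY⟩ i • (e i : A) := repr_coe e ⟨Y, hY⟩
  rw [hYe, br_sum_left, map_sum, map_sum, Finset.mul_sum, ← Finset.sum_neg_distrib,
    ← Finset.sum_add_distrib]
  refine Finset.sum_eq_zero fun i _ => ?_
  have h1 := h i
  rw [RM_inr] at h1
  rw [map_smul, map_smul, smul_eq_mul, smul_eq_mul]
  linear_combination (e.repr ⟨Y, hY⟩ i) * h1

theorem contact_iff (hlie : ∀ X ∈ 𝔤, ∀ Y ∈ 𝔤, br X Y ∈ 𝔤) (e : Module.Basis (Fin n) ℝ 𝔤)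
    (β : A →ₗ[ℝ] ℝ) : (RM hlie e (β ∘ₗ 𝔤.subtype)).det ≠ 0 ↔ ∃ ξ, IsContact 𝔤 β ξ := by
  have hmem : ∀ v : Fin n → ℝ, (∑ j, v j • (e j : A)) ∈ 𝔤 := fun v =>
    Submodule.sum_mem _ fun j _ => 𝔤.smul_mem _ (e j).2
  have hzero : ∀ v : Fin n → ℝ, (∑ j, v j • (e j : A)) = 0 → v = 0 := by
    intro v hv
    have h1 : ∑ j, v j • e j = 0 := by
      apply Subtype.ext
      simp only [Submodule.coe_sum, Submodule.coe_smul]
      exact hv
    exact funext fun j => (Fintype.linearIndependent_iff.1 e.linearIndependent) v h1 j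
  constructor
  · intro hdet
    have hunit : IsUnit (RM hlie e (β ∘ₗ 𝔤.subtype)).det := isUnit_iff_ne_zero.2 hdet
    obtain ⟨v, hv⟩ : ∃ v, RM hlie e (β ∘ₗ 𝔤.subtype) *ᵥ v = Pi.single (Sum.inl ()) 1 :=
      ⟨(RM hlie e (β ∘ₗ 𝔤.subtype))⁻¹ *ᵥ Pi.single (Sum.inl ()) 1, by
        rw [mulVec_mulVec, mul_nonsing_inv _ hunit, one_mulVec]⟩
    obtain ⟨ξ, hξ⟩ : ∃ ξ, ξ = ∑ j, v (Sum.inr j) • (e j : A) := ⟨_, rfl⟩
    have hξm : ξ ∈ 𝔤 := by rw [hξ]; exact hmem _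
    have hone : β ξ = 1 := by
      rw [hξ, ← RM_inl hlie e β v, hv]
      simp
    have h0 : ∀ i, (RM hlie e (β ∘ₗ 𝔤.subtype) *ᵥ v) (Sum.inr i) = 0 := by
      intro i
      rw [hv]
      simp
    have hall : ∀ Y ∈ 𝔤, -(v (Sum.inl ()) * β Y) + β (br Y ξ) = 0 := by
      intro Y hY
      rw [hξ]
      exact RM_all hlie e β v h0 hY
    have hs : v (Sum.inl ()) = 0 := by
      have h1 := hall ξ hξm
      rw [br_self, map_zero, hone] at h1
      linarith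
    have hrad : ∀ Y ∈ 𝔤, β (br ξ Y) = 0 := by
      intro Y hY
      have h1 := hall Y hY
      rw [hs, zero_mul, neg_zero, zero_add] at h1
      rw [br_anti, map_neg, h1, neg_zero]
    refine ⟨ξ, hξm, hone, hrad, ?_⟩
    intro X' hX' hX'0
    refine ⟨β X', ?_⟩
    obtain ⟨X'', hX''⟩ : ∃ X'', X'' = X' - β X' • ξ := ⟨_, rfl⟩
    have hX''m : X'' ∈ 𝔤 := by
      rw [hX'']
      exact 𝔤.sub_mem hX' (𝔤.smul_mem _ hξm)
    obtain ⟨w, hw⟩ : ∃ w : Unit ⊕ Fin n → ℝ, w = Sum.elim (fun _ => 0)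
      (fun i => e.repr ⟨X'', hX''m⟩ i) := ⟨_, rfl⟩
    have hwX : ∑ j, w (Sum.inr j) • (e j : A) = X'' := by
      rw [hw]
      exact (repr_coe e ⟨X'', hX''m⟩).symm
    have hw0 : RM hlie e (β ∘ₗ 𝔤.subtype) *ᵥ w = 0 := by
      funext p
      rcases p with p | p
      · rw [RM_inl, hwX, hX'', map_sub, map_smul, hone, smul_eq_mul, mul_one, sub_self]
        rfl
      · rw [RM_inr, hwX, br_anti, map_neg, hX'', br_sub_left, br_smul_left, map_sub, map_smul,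
          hX'0 _ (e p).2, hrad _ (e p).2, hw]
        simp
    have hwz : w = 0 := by
      have h1 : (RM hlie e (β ∘ₗ 𝔤.subtype))⁻¹ *ᵥ (RM hlie e (β ∘ₗ 𝔤.subtype) *ᵥ w) = w := by
        rw [mulVec_mulVec, nonsing_inv_mul _ hunit, one_mulVec]
      rw [← h1, hw0, mulVec_zero]
    have hX0 : X'' = 0 := by
      rw [← hwX, hwz]
      simp
    rw [hX''] at hX0
    exact sub_eq_zero.1 hX0
  · rintro ⟨ξ, hξ⟩ hdet
    obtain ⟨v, hv0, hv⟩ := exists_mulVec_eq_zero_iff.2 hdet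
    apply hv0
    obtain ⟨X, hX⟩ : ∃ X, X = ∑ j, v (Sum.inr j) • (e j : A) := ⟨_, rfl⟩
    have hXm : X ∈ 𝔤 := by rw [hX]; exact hmem _
    have hβX : β X = 0 := by
      rw [hX, ← RM_inl hlie e β v, hv]
      rfl
    have hall : ∀ Y ∈ 𝔤, -(v (Sum.inl ()) * β Y) + β (br Y X) = 0 := by
      intro Y hY
      rw [hX]
      exact RM_all hlie e β v (fun i => by rw [hv]; rfl) hY
    have hs : v (Sum.inl ()) = 0 := by
      have h1 := hall ξ hξ.mem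
      rw [hξ.one, hξ.rad X hXm] at h1
      linarith
    obtain ⟨c, hc⟩ := hξ.uniq X hXm (fun Y hY => by
      have h1 := hall Y hY
      rw [hs, zero_mul, neg_zero, zero_add] at h1
      rw [br_anti, map_neg, h1, neg_zero])
    have hc0 : c = 0 := by
      rw [hc, map_smul, hξ.one, smul_eq_mul, mul_one] at hβX
      exact hβX
    rw [hc0, zero_smul] at hc
    have h2 := hzero (fun j => v (Sum.inr j)) (by rw [← hX, hc])
    funext p
    rcases p with p | p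
    · exact hs
    · exact congrFun h2 p

theorem RM_inv (hlie : ∀ X ∈ 𝔤, ∀ Y ∈ 𝔤, br X Y ∈ 𝔤) (e : Module.Basis (Fin n) ℝ 𝔤)
    (T : 𝔤 →ₗ[ℝ] 𝔤)
    (hT : ∀ X Y Z : 𝔤, (Z : A) = br (X : A) Y → (T Z : A) = br (T X : A) (T Y))
    (hdet : LinearMap.det T = 1) (β : A →ₗ[ℝ] ℝ) :
    (RM hlie e ((β ∘ₗ 𝔤.subtype) ∘ₗ T)).det = (RM hlie e (β ∘ₗ 𝔤.subtype)).det := by
  obtain ⟨N, hN⟩ : ∃ N, N = LinearMap.toMatrix e e T := ⟨_, rfl⟩
  have hTe : ∀ j, (T (e j) : A) = ∑ i, N i j • (e i : A) := by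
    intro j
    rw [repr_coe e (T (e j)), hN]
    simp only [LinearMap.toMatrix_apply]
  have hmat : RM hlie e ((β ∘ₗ 𝔤.subtype) ∘ₗ T) =
      (fromBlocks (1 : Matrix Unit Unit ℝ) 0 0 N)ᵀ * RM hlie e (β ∘ₗ 𝔤.subtype) *
        fromBlocks (1 : Matrix Unit Unit ℝ) 0 0 N := by
    unfold RM
    rw [fromBlocks_transpose, fromBlocks_multiply, fromBlocks_multiply]
    simp only [transpose_one, transpose_zero, Matrix.one_mul, Matrix.zero_mul, Matrix.mul_zero,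
      Matrix.mul_one, add_zero, zero_add]
    congr 1
    · ext i j
      show β (T (e j)) = ∑ k, β (e k) * N k j
      rw [hTe, map_sum]
      refine Finset.sum_congr rfl fun k _ => ?_
      rw [map_smul, smul_eq_mul, mul_comm]
    · ext i j
      show -β (T (e i)) = ∑ k, N k i * -β (e k)
      rw [hTe, map_sum, ← Finset.sum_neg_distrib]
      refine Finset.sum_congr rfl fun k _ => ?_
      rw [map_smul, smul_eq_mul, mul_neg]
    · ext i j
      show β (T (BB hlie e i j)) = ∑ l, (∑ k, N k i * β (BB hlie e k l)) * N l j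
      rw [hT (e i) (e j) (BB hlie e i j) rfl, hTe, hTe, br_sum_right, map_sum]
      refine Finset.sum_congr rfl fun l _ => ?_
      rw [map_smul, smul_eq_mul, br_sum_left, map_sum, mul_comm]
      congr 1
      refine Finset.sum_congr rfl fun k _ => ?_
      rw [map_smul, smul_eq_mul]
      rfl
  rw [hmat, det_mul, det_mul, det_transpose, det_fromBlocks_zero₂₁, hN,
    LinearMap.det_toMatrix, hdet]
  simp

end

theorem poly1 : S_poly1 := by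
  intro A _ _ _ 𝔤 hlie n e
  refine ⟨(PM hlie e).det, PM_det_hom hlie e, ?_, ?_⟩
  · intro β
    rw [← contact_iff hlie e β, ← eval_PM]
    rfl
  · intro T hT hdet β
    have h1 := eval_PM hlie e ((β ∘ₗ 𝔤.subtype) ∘ₗ T)
    have h2 := eval_PM hlie e (β ∘ₗ 𝔤.subtype)
    rw [RM_inv hlie e T hT hdet β] at h1
    exact h1.trans h2.symm

end Pool.Agent.N424.LI
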